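import Pool.Agent.N176.OW.Stm2

/-!
# Optimal windows: the sum over the last digits
-/

set_option autoImplicit false

namespace Pool.Agent.N123.OW

open Finset Filter Topology MeasureTheory
open Pool.Agent.N176.OW

namespace DSAux

/-- the number of the levels `e < f` such that the digits between `e` and `f` are zero -/
def RR (b f r : ℕ) : ℕ :=
  ((range f).filter (fun e => r / b ^ e = b ^ (f - e) * (r / b ^ f))).card

theorem sum_mul (c B : ℕ) (g : ℕ → ℝ) :
    ∑ n ∈ range (c * B), g n = ∑ m ∈ range c, ∑ r ∈ range B, g (m * B + r) := by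
  induction c with
  | zero => simp
  | succ c ih => rw [Nat.succ_mul, Finset.sum_range_add, ih, Finset.sum_range_succ]

variable {b : ℕ}

theorem div_eq_zero' (hb : 2 ≤ b) {r e : ℕ} : r / b ^ e = 0 ↔ r < b ^ e := by
  rw [Nat.div_eq_zero_iff]
  have : b ^ e ≠ 0 := by positivity
  tauto

/-- `RR` for small numbers -/
theorem RR_eq (hb : 2 ≤ b) {f r : ℕ} (h : r < b ^ f) :
    RR b f r = ((range f).filter (fun e => r < b ^ e)).card := by
  unfold RR
  congr 1
  refine Finset.filter_congr fun e _ => ?_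
  rw [(div_eq_zero' hb).2 h, mul_zero, div_eq_zero' hb]

/-- sums of one term -/
theorem one (hb : 2 ≤ b) {s : ℝ} (hs0 : 0 ≤ s) (hs1 : s ≤ 1 / 2) (N : ℕ) :
    ∑ u ∈ range (b ^ N), ((1 + s) ^ (1 + RR b N u) - 1) ≤ 4 * s * (b : ℝ) ^ N := by
  have h0 : ∀ N : ℕ, ∑ u ∈ range (b ^ N), ((1 + s) ^ (1 + RR b N u) - 1) =
      ∑ u ∈ range (b ^ N), ((1 + s) ^ (1 + ((range N).filter (fun e => u < b ^ e)).card) - 1) := by
    intro N
    refine Finset.sum_congr rfl fun u hu => ?_
    rw [RR_eq hb (mem_range.1 hu)]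
  rw [h0]
  have hbr : (2 : ℝ) ≤ b := by exact_mod_cast hb
  induction N with
  | zero =>
    simp
    linarith
  | succ N ih =>
    have hle : b ^ N ≤ b ^ (N + 1) := Nat.pow_le_pow_right (by omega) (Nat.le_succ N)
    have h1 : ∀ u < b ^ N, ((range (N + 1)).filter (fun e => u < b ^ e)).card =
        ((range N).filter (fun e => u < b ^ e)).card + 1 := by
      intro u hu
      rw [Finset.range_add_one, Finset.filter_insert, if_pos hu, Finset.card_insert_of_notMem]
      simp
    have h2 : ∀ u, b ^ N ≤ u → ((range (N + 1)).filter (fun e => u < b ^ e)).card = 0 := by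
      intro u hu
      rw [Finset.card_eq_zero, Finset.filter_eq_empty_iff]
      intro e he
      rw [mem_range] at he
      have : b ^ e ≤ b ^ N := Nat.pow_le_pow_right (by omega) (by omega)
      omega
    have h3 : ∑ u ∈ range (b ^ (N + 1)),
        ((1 + s) ^ (1 + ((range (N + 1)).filter (fun e => u < b ^ e)).card) - 1) =
        (1 + s) * ∑ u ∈ range (b ^ N),
          ((1 + s) ^ (1 + ((range N).filter (fun e => u < b ^ e)).card) - 1) +
        s * (b : ℝ) ^ (N + 1) := by
      obtain ⟨m, hm⟩ := Nat.exists_eq_add_of_le hle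
      rw [hm, Finset.sum_range_add]
      have e1 : ∑ u ∈ range (b ^ N),
          ((1 + s) ^ (1 + ((range (N + 1)).filter (fun e => u < b ^ e)).card) - 1) =
          (1 + s) * ∑ u ∈ range (b ^ N),
            ((1 + s) ^ (1 + ((range N).filter (fun e => u < b ^ e)).card) - 1) +
          s * (b : ℝ) ^ N := by
        have e2 : s * (b : ℝ) ^ N = ∑ u ∈ range (b ^ N), s := by
          rw [Finset.sum_const, card_range, nsmul_eq_mul]
          push_cast
          ring
        rw [e2, Finset.mul_sum, ← Finset.sum_add_distrib]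
        refine Finset.sum_congr rfl fun u hu => ?_
        rw [h1 u (mem_range.1 hu)]
        ring
      have e3 : ∑ x ∈ range m,
          ((1 + s) ^ (1 + ((range (N + 1)).filter (fun e => b ^ N + x < b ^ e)).card) - 1) =
          s * m := by
        have e4 : ∀ x ∈ range m,
          ((1 + s) ^ (1 + ((range (N + 1)).filter (fun e => b ^ N + x < b ^ e)).card) - 1) = s := by
          intro x _
          rw [h2 _ (Nat.le_add_right _ _)]
          ring
        rw [Finset.sum_congr rfl e4, Finset.sum_const, card_range, nsmul_eq_mul]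
        ring
      rw [e1, e3]
      have e5 : (b : ℝ) ^ (N + 1) = (b : ℝ) ^ N + m := by exact_mod_cast hm
      rw [e5]
      ring
    rw [h3]
    have h4 : (1 + s) * ∑ u ∈ range (b ^ N),
        ((1 + s) ^ (1 + ((range N).filter (fun e => u < b ^ e)).card) - 1) ≤
        (3 / 2) * (4 * s * (b : ℝ) ^ N) := by
      have h5 : 0 ≤ 4 * s * (b : ℝ) ^ N := by positivity
      calc _ ≤ (1 + s) * (4 * s * (b : ℝ) ^ N) := mul_le_mul_of_nonneg_left ih (by linarith)
        _ ≤ _ := mul_le_mul_of_nonneg_right (by linarith) h5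
    have h6 : s * (b : ℝ) ^ N * 2 ≤ s * (b : ℝ) ^ N * b :=
      mul_le_mul_of_nonneg_left hbr (by positivity)
    have h7 : s * (b : ℝ) ^ (N + 1) = s * (b : ℝ) ^ N * b := by ring
    have h8 : 4 * s * (b : ℝ) ^ (N + 1) = 4 * (s * (b : ℝ) ^ N * b) := by ring
    rw [h7, h8]
    linarith

theorem term_nonneg {s : ℝ} (hs0 : 0 ≤ s) (k : ℕ) : 0 ≤ (1 + s) ^ (1 + k) - 1 := by
  have : (1 : ℝ) ≤ (1 + s) ^ (1 + k) := one_le_pow₀ (by linarith)
  linarith

/-- division of `u * b ^ f2 + r` by `b ^ e` -/
theorem div_split (hb : 2 ≤ b) {e f2 : ℕ} (h : e ≤ f2) (u r : ℕ) :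
    (u * b ^ f2 + r) / b ^ e = u * b ^ (f2 - e) + r / b ^ e := by
  have h1 : u * b ^ f2 + r = r + b ^ e * (u * b ^ (f2 - e)) := by
    have h2 : b ^ f2 = b ^ e * b ^ (f2 - e) := by rw [← pow_add, Nat.add_sub_cancel' h]
    rw [h2]
    ring
  rw [h1, Nat.add_mul_div_left _ _ (by positivity)]
  ring

theorem deg_split (hb : 2 ≤ b) {e f f2 : ℕ} (he : e ≤ f) (h : f ≤ f2) (u r : ℕ) :
    (u * b ^ f2 + r) / b ^ e = b ^ (f - e) * ((u * b ^ f2 + r) / b ^ f) ↔
      r / b ^ e = b ^ (f - e) * (r / b ^ f) := by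
  rw [div_split hb (he.trans h), div_split hb h, mul_add]
  have h1 : b ^ (f - e) * (u * b ^ (f2 - f)) = u * b ^ (f2 - e) := by
    have h2 : b ^ (f2 - e) = b ^ (f - e) * b ^ (f2 - f) := by
      rw [← pow_add]
      congr 1
      omega
    rw [h2]
    ring
  rw [h1]
  exact Nat.add_left_cancel_iff

theorem RR_split (hb : 2 ≤ b) {f f2 : ℕ} (h : f ≤ f2) (u r : ℕ) :
    RR b f (u * b ^ f2 + r) = RR b f r := by
  unfold RR
  congr 1
  refine Finset.filter_congr fun e he => ?_
  exact deg_split hb (mem_range.1 he).le h u r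

theorem lt_split (hb : 2 ≤ b) {e f2 u r : ℕ} (h : f2 ≤ e) (hr : r < b ^ f2) :
    u * b ^ f2 + r < b ^ e ↔ u < b ^ (e - f2) := by
  have h1 : b ^ e = b ^ (e - f2) * b ^ f2 := by rw [← pow_add, Nat.sub_add_cancel h]
  rw [h1]
  constructor
  · intro h2
    by_contra h3
    push Not at h3
    have := Nat.mul_le_mul_right (b ^ f2) h3
    omega
  · intro h2
    have h3 := Nat.mul_le_mul_right (b ^ f2) h2
    rw [Nat.succ_mul] at h3
    omega

theorem RR_top (hb : 2 ≤ b) {a f2 u r : ℕ} (h : f2 < a) (hr : r < b ^ f2)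
    (hu : u < b ^ (a - f2)) (hu0 : 1 ≤ u) :
    RR b a (u * b ^ f2 + r) = RR b (a - f2) u := by
  have h1 : u * b ^ f2 + r < b ^ a := (lt_split hb h.le hr).2 hu
  rw [RR_eq hb h1, RR_eq hb hu]
  refine Finset.card_nbij' (fun e => e - f2) (fun e => e + f2) ?_ ?_ ?_ ?_
  · intro e he
    simp only [Finset.coe_filter, Finset.mem_range, Set.mem_ofPred_eq] at he ⊢
    have h2 : f2 ≤ e := by
      by_contra h3
      push Not at h3
      have h4 : b ^ e ≤ b ^ f2 := Nat.pow_le_pow_right (by omega) h3.le
      have h5 : 1 * b ^ f2 ≤ u * b ^ f2 := Nat.mul_le_mul_right _ hu0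
      omega
    refine ⟨by omega, ?_⟩
    exact (lt_split hb h2 hr).1 he.2
  · intro e he
    simp only [Finset.coe_filter, Finset.mem_range, Set.mem_ofPred_eq] at he ⊢
    refine ⟨by omega, ?_⟩
    rw [lt_split hb (Nat.le_add_left _ _) hr, Nat.add_sub_cancel]
    exact he.2
  · intro e he
    simp only [Finset.coe_filter, Finset.mem_range, Set.mem_ofPred_eq] at he
    have h2 : f2 ≤ e := by
      by_contra h3
      push Not at h3
      have h4 : b ^ e ≤ b ^ f2 := Nat.pow_le_pow_right (by omega) h3.le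
      have h5 : 1 * b ^ f2 ≤ u * b ^ f2 := Nat.mul_le_mul_right _ hu0
      omega
    simp only
    omega
  · intro e _
    simp only
    omega

/-- no degenerate pairs of levels -/
def ND (b : ℕ) (G : Finset ℕ) (r : ℕ) : Prop :=
  ∀ f ∈ G, ∀ e ∈ G, e < f → ¬ (r / b ^ e = b ^ (f - e) * (r / b ^ f))

open Classical in
theorem main (hb : 2 ≤ b) {s : ℝ} (hs0 : 0 ≤ s) (hs1 : s ≤ 1 / 2) (G : Finset ℕ) :
    ∀ f1 ∈ G, (∀ f ∈ G, f ≤ f1) →
    ∑ r ∈ range (b ^ f1), (if ND b G r then ∏ f ∈ G, ((1 + s) ^ (1 + RR b f r) - 1) else 0) ≤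
      (4 * s) ^ G.card * (b : ℝ) ^ f1 := by
  induction G using Finset.induction_on_max with
  | empty => simp
  | insert a G hG ih =>
    intro f1 hf1 hmax
    have haG : a ∉ G := fun h => lt_irrefl _ (hG a h)
    have hf1a : f1 = a := by
      rcases Finset.mem_insert.1 hf1 with h | h
      · exact h
      · have := hG f1 h
        have := hmax a (Finset.mem_insert_self a G)
        omega
    subst hf1a
    rw [Finset.card_insert_of_notMem haG]
    rcases G.eq_empty_or_nonempty with hGe | hGne
    · subst hGe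
      have h1 : ∀ r ∈ range (b ^ f1), (if ND b (insert f1 ∅) r then
          ∏ f ∈ insert f1 (∅ : Finset ℕ), ((1 + s) ^ (1 + RR b f r) - 1) else 0) ≤
          (1 + s) ^ (1 + RR b f1 r) - 1 := by
        intro r _
        split_ifs
        · simp
        · exact term_nonneg hs0 _
      refine (Finset.sum_le_sum h1).trans ?_
      refine (one hb hs0 hs1 f1).trans (le_of_eq ?_)
      simp
    · set f2 := G.max' hGne with hf2
      have hf2G : f2 ∈ G := G.max'_mem hGne
      have hf21 : f2 < f1 := hG f2 hf2G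
      have hmax2 : ∀ f ∈ G, f ≤ f2 := fun f hf => G.le_max' f hf
      have ih' := ih f2 hf2G hmax2
      have hsplit : b ^ f1 = b ^ (f1 - f2) * b ^ f2 := by
        rw [← pow_add, Nat.sub_add_cancel hf21.le]
      have hpt : ∀ u ∈ range (b ^ (f1 - f2)), ∀ r ∈ range (b ^ f2),
          (if ND b (insert f1 G) (u * b ^ f2 + r) then
            ∏ f ∈ insert f1 G, ((1 + s) ^ (1 + RR b f (u * b ^ f2 + r)) - 1) else 0) ≤
          ((1 + s) ^ (1 + RR b (f1 - f2) u) - 1) *
            (if ND b G r then ∏ f ∈ G, ((1 + s) ^ (1 + RR b f r) - 1) else 0) := by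
        intro u hu r hr
        rw [mem_range] at hu hr
        by_cases hnd : ND b (insert f1 G) (u * b ^ f2 + r)
        · have hnd' : ND b G r := by
            intro f hf e he hef hd
            refine hnd f (Finset.mem_insert_of_mem hf) e (Finset.mem_insert_of_mem he) hef ?_
            exact (deg_split hb hef.le (hmax2 f hf) u r).2 hd
          have hu0 : 1 ≤ u := by
            by_contra h0
            have h0' : u = 0 := by omega
            subst h0'
            refine hnd f1 (Finset.mem_insert_self _ _) f2 (Finset.mem_insert_of_mem hf2G) hf21 ?_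
            rw [zero_mul, zero_add, (div_eq_zero' hb).2 hr, (div_eq_zero' hb).2 (hr.trans
              (Nat.pow_lt_pow_right (by omega) hf21)), mul_zero]
          rw [if_pos hnd, if_pos hnd', Finset.prod_insert haG, RR_top hb hf21 hr hu hu0]
          refine le_of_eq ?_
          congr 1
          refine Finset.prod_congr rfl fun f hf => ?_
          rw [RR_split hb (hmax2 f hf)]
        · rw [if_neg hnd]
          refine mul_nonneg (term_nonneg hs0 _) ?_
          split_ifs
          · exact Finset.prod_nonneg fun f _ => term_nonneg hs0 _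
          · exact le_rfl
      rw [hsplit, sum_mul]
      refine (Finset.sum_le_sum fun u hu => Finset.sum_le_sum fun r hr => hpt u hu r hr).trans ?_
      have h2 : ∑ u ∈ range (b ^ (f1 - f2)), ∑ r ∈ range (b ^ f2),
          ((1 + s) ^ (1 + RR b (f1 - f2) u) - 1) *
            (if ND b G r then ∏ f ∈ G, ((1 + s) ^ (1 + RR b f r) - 1) else 0) =
          (∑ u ∈ range (b ^ (f1 - f2)), ((1 + s) ^ (1 + RR b (f1 - f2) u) - 1)) *
            ∑ r ∈ range (b ^ f2),
              (if ND b G r then ∏ f ∈ G, ((1 + s) ^ (1 + RR b f r) - 1) else 0) := by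
        rw [Finset.sum_mul_sum]
      rw [h2]
      have h3 := one hb hs0 hs1 (f1 - f2)
      have h4 : 0 ≤ ∑ r ∈ range (b ^ f2),
              (if ND b G r then ∏ f ∈ G, ((1 + s) ^ (1 + RR b f r) - 1) else 0) := by
        refine Finset.sum_nonneg fun r _ => ?_
        split_ifs
        · exact Finset.prod_nonneg fun f _ => term_nonneg hs0 _
        · exact le_rfl
      refine (mul_le_mul h3 ih' h4 (by positivity)).trans (le_of_eq ?_)
      have h5 : (b : ℝ) ^ f1 = (b : ℝ) ^ (f1 - f2) * (b : ℝ) ^ f2 := by exact_mod_cast hsplit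
      rw [h5, pow_succ]
      ring

theorem run_eq {b t p n : ℕ} : run b t p n = RR b (t - p) n := by
  unfold run RR
  refine Finset.card_nbij' (fun q => t - q) (fun e => t - e) ?_ ?_ ?_ ?_
  · intro q hq
    simp only [Finset.coe_filter, Finset.mem_Ioc, Finset.mem_range, Set.mem_ofPred_eq] at hq ⊢
    refine ⟨by omega, ?_⟩
    have h1 : t - p - (t - q) = q - p := by omega
    rw [h1]
    exact hq.2
  · intro e he
    simp only [Finset.coe_filter, Finset.mem_Ioc, Finset.mem_range, Set.mem_ofPred_eq] at he ⊢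
    refine ⟨by omega, ?_⟩
    unfold Deg
    have h1 : t - (t - e) = e := by omega
    have h2 : t - e - p = t - p - e := by omega
    rw [h1, h2]
    exact he.2
  · intro q hq
    simp only [Finset.coe_filter, Finset.mem_Ioc, Set.mem_ofPred_eq] at hq
    simp only
    omega
  · intro e he
    simp only [Finset.coe_filter, Finset.mem_range, Set.mem_ofPred_eq] at he
    simp only
    omega

end DSAux

open DSAux in
/-- the sum over the last digits -/
theorem ds : S_DS := by
  classical
  intro b hb s hs0 hs1 t F hF p1 hp1 hmin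
  have hinj : Set.InjOn (fun p => t - p) (F : Set ℕ) := by
    intro p hp q hq h
    have h1 := hF p hp
    have h2 := hF q hq
    simp only at h
    omega
  have hm := main hb hs0 hs1 (F.image fun p => t - p) (t - p1)
    (Finset.mem_image_of_mem _ hp1) (by
      intro f hf
      obtain ⟨p, hp, rfl⟩ := Finset.mem_image.1 hf
      have := hmin p hp
      omega)
  rw [Finset.card_image_of_injOn hinj] at hm
  refine le_trans (le_of_eq ?_) hm
  rw [Finset.sum_filter]
  refine Finset.sum_congr rfl fun r _ => ?_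
  have hnd : (∀ p ∈ F, ∀ q ∈ F, p < q → ¬ Deg b t p q r) ↔ ND b (F.image fun p => t - p) r := by
    constructor
    · intro h f hf e he hef hd
      obtain ⟨p, hp, rfl⟩ := Finset.mem_image.1 hf
      obtain ⟨q, hq, rfl⟩ := Finset.mem_image.1 he
      have h1 := hF p hp
      have h2 := hF q hq
      refine h p hp q hq (by omega) ?_
      unfold Deg
      have h3 : t - p - (t - q) = q - p := by omega
      rwa [h3] at hd
    · intro h p hp q hq hpq hd
      have h1 := hF p hp
      have h2 := hF q hq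
      refine h (t - p) (Finset.mem_image_of_mem _ hp) (t - q) (Finset.mem_image_of_mem _ hq)
        (by omega) ?_
      have h3 : t - p - (t - q) = q - p := by omega
      rw [h3]
      exact hd
  have hprod : ∏ f ∈ F.image (fun p => t - p), ((1 + s) ^ (1 + RR b f r) - 1) =
      ∏ p ∈ F, ((1 + s) ^ (1 + run b t p r) - 1) := by
    rw [Finset.prod_image hinj]
    exact Finset.prod_congr rfl fun p _ => by rw [run_eq]
  rw [hprod]
  by_cases h : ∀ p ∈ F, ∀ q ∈ F, p < q → ¬ Deg b t p q r
  · rw [if_pos h, if_pos (hnd.1 h)]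
  · rw [if_neg h, if_neg fun h' => h (hnd.2 h')]

end Pool.Agent.N123.OW
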